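import Mathlib

set_option autoImplicit false

namespace Pool.Agent.Lib.MP_ed7968_lc

/-- Rule 30 started from a single black cell. -/
def X (t : ℕ) : ℤ → Bool :=
  (fun (f : ℤ → Bool) (i : ℤ) => Bool.xor (f (i - 1)) (f i || f (i + 1)))^[t]
    (fun i : ℤ => decide (i = 0))

lemma X_succ (t : ℕ) (i : ℤ) : X (t + 1) i = Bool.xor (X t (i - 1)) (X t i || X t (i + 1)) := by
  rw [X, Function.iterate_succ_apply']
  rfl

lemma left (t : ℕ) : ∀ i : ℤ, i < -t → X t i = false := by
  induction t with
  | zero => intro i hi; simp [X]; omega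
  | succ t ih =>
    intro i hi
    push_cast at hi
    rw [X_succ, ih _ (by omega), ih _ (by omega), ih _ (by omega)]
    rfl

lemma edge (t : ℕ) : X t (-t) = true := by
  induction t with
  | zero => simp [X]
  | succ t ih =>
    rw [X_succ, left t _ (by push_cast; omega), left t _ (by push_cast; omega),
      show -((t + 1 : ℕ) : ℤ) + 1 = -t by push_cast; ring, ih]
    rfl

/-- Row `t` is striped on `[q - n, q]`, with a black cell at `q`. -/
def Str (t : ℕ) (q : ℤ) (n : ℕ) : Prop := ∀ j ≤ n, X t (q - j) = decide (j % 2 = 0)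

/-- A black run in a column forces stripes to its left. -/
lemma str_of_run {q : ℤ} (L : ℕ) : ∀ T : ℕ, (∀ t, T ≤ t → t ≤ T + L → X t q = true) →
    Str T q L := by
  induction L with
  | zero =>
    intro T h j hj
    obtain rfl : j = 0 := by omega
    simpa using h T le_rfl le_rfl
  | succ L ih =>
    intro T h
    have h1 := ih (T + 1) fun t a b => h t (by omega) (by omega)
    have key : ∀ j ≤ L + 1, X T (q - j) = decide (j % 2 = 0) := by
      intro j
      induction j using Nat.strong_induction_on with
      | _ j ihj =>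
      intro hj
      match j with
      | 0 => simpa using h T le_rfl (by omega)
      | k + 1 =>
        have e := h1 k (by omega)
        rw [X_succ, show q - k - 1 = q - (k + 1 : ℕ) by push_cast; ring, ihj k (by omega)
          (by omega)] at e
        by_cases hk : k % 2 = 0
        · have : (k + 1) % 2 ≠ 0 := by omega
          simpa [hk, this] using e
        · obtain ⟨m, rfl⟩ : ∃ m, k = m + 1 := ⟨k - 1, by omega⟩
          rw [show q - (m + 1 : ℕ) + 1 = q - m by push_cast; ring, ihj m (by omega)
            (by omega)] at e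
          have h2 : m % 2 = 0 := by omega
          have h3 : (m + 1 + 1) % 2 = 0 := by omega
          simpa [hk, h2, h3] using e
    exact key

/-- Stripes come from stripes: one cell is gained on the left and four are lost on the right. -/
lemma str_back {t : ℕ} {q : ℤ} {n : ℕ} (h : Str (t + 1) q (n + 3)) : Str t (q - 4) n := by
  have h0 : X t (q - 4) = true := by
    have e1 := h 1 (by omega)
    have e2 := h 2 (by omega)
    have e3 := h 3 (by omega)
    rw [X_succ] at e1 e2 e3
    norm_num [sub_sub, sub_add] at e1 e2 e3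
    revert e1 e2 e3
    cases X t (q - 4) <;> cases X t (q - 3) <;> cases X t (q - 2) <;> cases X t (q - 1) <;>
      cases X t q <;> simp
  intro j
  induction j using Nat.strong_induction_on with
  | _ j ihj =>
  intro hj
  match j with
  | 0 => simpa using h0
  | k + 1 =>
    have e := h (k + 4) (by omega)
    rw [X_succ, show q - (k + 4 : ℕ) - 1 = q - 4 - (k + 1 : ℕ) by push_cast; ring,
      show q - (k + 4 : ℕ) = q - 4 - k by push_cast; ring, ihj k (by omega) (by omega)] at e
    by_cases hk : k % 2 = 0
    · have h1 : (k + 1) % 2 ≠ 0 := by omega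
      have h2 : (k + 4) % 2 = 0 := by omega
      simpa [hk, h1, h2] using e
    · obtain ⟨m, rfl⟩ : ∃ m, k = m + 1 := ⟨k - 1, by omega⟩
      rw [show q - 4 - (m + 1 : ℕ) + 1 = q - 4 - m by push_cast; ring, ihj m (by omega)
        (by omega)] at e
      have h2 : m % 2 = 0 := by omega
      have h3 : (m + 1 + 1) % 2 = 0 := by omega
      have h4 : (m + 1 + 4) % 2 ≠ 0 := by omega
      simpa [hk, h2, h3, h4] using e

lemma le_of_black {t : ℕ} {i : ℤ} (h : X t i = true) : -t ≤ i := by
  by_contra hi
  rw [left t i (by omega)] at h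
  exact absurd h (by simp)

/-- Striped blocks are short. -/
lemma str_le (t : ℕ) : ∀ (q : ℤ) (n : ℕ), Str t q n → 5 * (n : ℤ) ≤ 3 * (t + q) + 5 := by
  have small : ∀ (t : ℕ) (q : ℤ) (n : ℕ), n ≤ 2 → Str t q n → 5 * (n : ℤ) ≤ 3 * (t + q) + 5 := by
    intro t q n hn h
    have h0 := le_of_black (h 0 (by omega))
    by_cases e : n = 2
    · have h2 := le_of_black (h 2 (by omega))
      push_cast at h2
      omega
    · push_cast at h0
      omega
  induction t with
  | zero =>
    intro q n h
    by_cases hn : n ≤ 2
    · exact small 0 q n hn h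
    · have h0 := h 0 (by omega)
      have h2 := h 2 (by omega)
      simp [X] at h0 h2
      omega
  | succ t ih =>
    intro q n h
    by_cases hn : n ≤ 2
    · exact small _ q n hn h
    · obtain ⟨m, rfl⟩ : ∃ m, n = m + 3 := ⟨n - 3, by omega⟩
      have := ih _ _ (str_back h)
      push_cast
      omega

/-- Two adjacent white columns force a white triangle. -/
lemma zero_tri (j : ℕ) : ∀ T L : ℕ, (∀ t, T ≤ t → t ≤ T + L → X t 0 = false ∧ X t 1 = false) →
    j ≤ L + 1 → X T (1 - j) = false := by
  induction j using Nat.strong_induction_on with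
  | _ j ih =>
  intro T L h hj
  match j with
  | 0 => simpa using (h T le_rfl (by omega)).2
  | 1 => simpa using (h T le_rfl (by omega)).1
  | k + 2 =>
    obtain ⟨M, rfl⟩ : ∃ M, L = M + 1 := ⟨L - 1, by omega⟩
    have e := ih (k + 1) (by omega) (T + 1) M (fun t a b => h t (by omega) (by omega)) (by omega)
    rw [X_succ, ih (k + 1) (by omega) T _ h (by omega),
      show (1 : ℤ) - (k + 1 : ℕ) + 1 = 1 - k by push_cast; ring, ih k (by omega) T _ h (by omega),
      show (1 : ℤ) - (k + 1 : ℕ) - 1 = 1 - (k + 2 : ℕ) by push_cast; ring] at e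
    simpa using e

theorem white (T : ℕ) : ∃ t, T ≤ t ∧ 5 * t ≤ 8 * T + 10 ∧ X t 0 = false := by
  by_contra hc
  push Not at hc
  have := str_le T 0 _ (str_of_run ((3 * T + 10) / 5) T fun t a b => by
    simpa using hc t a (by omega))
  push_cast at this
  omega

theorem black (T : ℕ) : ∃ t, T ≤ t ∧ 5 * t ≤ 16 * T ∧ X t 0 = true := by
  by_contra hc
  push Not at hc
  have hw : ∀ t, T ≤ t → 5 * t ≤ 16 * T → X t 0 = false := fun t a b => by simpa using hc t a b
  cases T with
  | zero => simpa [X] using hw 0 le_rfl le_rfl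
  | succ S =>
  obtain ⟨U, h1, h2, h3⟩ : ∃ U, S + 1 ≤ U ∧ U ≤ S + 1 + S ∧ X U 1 = true := by
    by_contra hn
    push Not at hn
    have := zero_tri (S + 1) (S + 1) S (fun t a b => ⟨hw t a (by omega), by simpa using hn t a b⟩)
      le_rfl
    rw [X_succ, show (1 : ℤ) - (S + 1 : ℕ) = -S by push_cast; ring, edge,
      left S _ (by omega)] at this
    simp at this
  have hb : ∀ k, 5 * (U + k) ≤ 16 * (S + 1) + 5 → X (U + k) 1 = true := by
    intro k
    induction k with
    | zero => exact fun _ => h3
    | succ k ih =>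
      intro hk
      rw [← add_assoc, X_succ, ih (by omega), sub_self, hw _ (by omega) (by omega)]
      simp
  have := str_le U 1 _ (str_of_run ((16 * (S + 1) + 5) / 5 - U) U fun t a b => by
    obtain ⟨k, rfl⟩ := Nat.exists_eq_add_of_le a
    exact hb k (by omega))
  omega

end Pool.Agent.Lib.MP_ed7968_lc
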